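import Pool.Agent.W719.AR.Rt
import Pool.Agent.W346.HT.Asm

/-!
# AR-LMR: the rotation at the root of unity
-/

set_option autoImplicit false

namespace Pool.Agent.W885.AR

open Finset Filter Topology
open Pool.Agent.H550R3.Jones Pool.Agent.W711.HT Pool.Agent.W719.AR
open Pool.Agent.W346.HT (vN_ne Sd_mul Sd_pos wn_vN wn_cont upp_sum upp_const_mul IntP_kr IntP
  Rp_cont Rp_diff)
open scoped Real

/-! ### The nodes -/

lemma un_sub (v : ℂ) (hv : v ≠ 0) (c j : ℕ) :
    un v c - un v j = br v ((c : ℤ) - j) * br v ((c : ℤ) + j + 1) := by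
  unfold un br
  have h1 : v ^ (2 * (c : ℤ) + 1) = v ^ ((c : ℤ) - j) * v ^ ((c : ℤ) + j + 1) := by
    rw [← zpow_add₀ hv]; congr 1; ring
  have h2 : v ^ (-(2 * (c : ℤ) + 1)) = v ^ (-((c : ℤ) - j)) * v ^ (-((c : ℤ) + j + 1)) := by
    rw [← zpow_add₀ hv]; congr 1; ring
  have h3 : v ^ (2 * (j : ℤ) + 1) = v ^ (-((c : ℤ) - j)) * v ^ ((c : ℤ) + j + 1) := by
    rw [← zpow_add₀ hv]; congr 1; ring
  have h4 : v ^ (-(2 * (j : ℤ) + 1)) = v ^ ((c : ℤ) - j) * v ^ (-((c : ℤ) + j + 1)) := by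
    rw [← zpow_add₀ hv]; congr 1; ring
  rw [h1, h2, h3, h4]
  ring

/-- near a nonzero point, `{n}` does not vanish, `n ≠ 0` -/
lemma br_ev (a : ℂ) (ha : a ≠ 0) (n : ℤ) (hn : n ≠ 0) : ∀ᶠ v in 𝓝[≠] a, br v n ≠ 0 := by
  have hne : ∀ᶠ v in 𝓝[≠] a, v ≠ 0 :=
    (continuousAt_id.eventually_ne ha).filter_mono nhdsWithin_le_nhds
  -- the roots of `v ^ (2 |n|) = 1` are finitely many
  have hfin : Set.Finite {v : ℂ | v ^ (2 * n.natAbs) = 1} := by
    have hp : (Polynomial.X ^ (2 * n.natAbs) - 1 : Polynomial ℂ) ≠ 0 := by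
      apply Polynomial.X_pow_sub_C_ne_zero
      have := Int.natAbs_pos.mpr hn
      omega
    refine (Polynomial.finite_setOfPred_isRoot hp).subset ?_
    intro v hv
    have hv' : v ^ (2 * n.natAbs) = 1 := hv
    show Polynomial.IsRoot _ v
    simp [Polynomial.IsRoot, hv']
  have hfin2 : ∀ᶠ v in 𝓝[≠] a, v ∉ {v : ℂ | v ^ (2 * n.natAbs) = 1} := by
    have h1 : ({v : ℂ | v ^ (2 * n.natAbs) = 1} \ {a}).Finite := hfin.subset Set.sdiff_subset
    have h2 : ({v : ℂ | v ^ (2 * n.natAbs) = 1} \ {a})ᶜ ∈ 𝓝 a :=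
      h1.isClosed.isOpen_compl.mem_nhds (by simp)
    have h3 : ∀ᶠ v in 𝓝[≠] a, v ∈ ({v : ℂ | v ^ (2 * n.natAbs) = 1} \ {a})ᶜ :=
      nhdsWithin_le_nhds h2
    filter_upwards [h3, self_mem_nhdsWithin] with v hv1 hv2 hv3
    exact hv1 ⟨hv3, hv2⟩
  filter_upwards [hne, hfin2] with v hv0 hv hb
  apply hv
  show v ^ (2 * n.natAbs) = 1
  unfold br at hb
  have h1 : v ^ n = v ^ (-n) := sub_eq_zero.mp hb
  have h2 : v ^ (2 * n) = 1 := by
    have : v ^ (2 * n) = v ^ n * v ^ n := by rw [← zpow_add₀ hv0]; congr 1; ring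
    rw [this]
    nth_rewrite 2 [h1]
    rw [← zpow_add₀ hv0]
    simp
  have h3 : v ^ (((2 * n.natAbs : ℕ)) : ℤ) = 1 := by
    have h4 : ((2 * n.natAbs : ℕ) : ℤ) = 2 * (n.natAbs : ℤ) := by
      rw [Nat.cast_mul]; rfl
    rw [h4]
    rcases Int.natAbs_eq n with h | h
    · rw [← h]
      exact h2
    · have h5 : 2 * (n.natAbs : ℤ) = -(2 * n) := by omega
      rw [h5, zpow_neg, h2, inv_one]
  rw [zpow_natCast] at h3
  exact h3

lemma un_ev (N c j : ℕ) (h : c ≠ j) : ∀ᶠ v in 𝓝[≠] vN N, un v c - un v j ≠ 0 := by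
  have hne : ∀ᶠ v in 𝓝[≠] vN N, v ≠ 0 :=
    (continuousAt_id.eventually_ne (vN_ne N)).filter_mono nhdsWithin_le_nhds
  filter_upwards [hne, br_ev (vN N) (vN_ne N) ((c : ℤ) - j) (by omega),
    br_ev (vN N) (vN_ne N) ((c : ℤ) + j + 1) (by omega)] with v h1 h2 h3
  rw [un_sub v h1]
  exact mul_ne_zero h2 h3

lemma ps_symm {N c : ℕ} (hc : c < N) : ps N (N - 1 - c) = - ps N c := by
  unfold ps
  have h : ((N - 1 - c : ℕ) : ℝ) = (N : ℝ) - 1 - c := by
    rw [Nat.cast_sub (by omega), Nat.cast_sub (by omega)]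
    simp
  rw [h]
  ring

lemma un_vN {N : ℕ} (hN : 0 < N) (c : ℕ) : un (vN N) c = -2 * Complex.cos (ps N c) := by
  unfold un
  rw [Pool.Agent.W346.HT.vN_zpow, Pool.Agent.W346.HT.vN_zpow]
  have hN0 : (N : ℝ) ≠ 0 := by exact_mod_cast hN.ne'
  have h1 : π * ((2 * (c : ℤ) + 1 : ℤ) : ℝ) / N = ps N c + π := by
    unfold ps
    push_cast
    field_simp
    ring
  have h2 : π * ((-(2 * (c : ℤ) + 1) : ℤ) : ℝ) / N = -(ps N c + π) := by
    rw [← h1]
    push_cast
    ring
  rw [h1, h2]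
  have h3 : Complex.exp (((ps N c + π : ℝ) : ℂ) * Complex.I) +
      Complex.exp (((-(ps N c + π) : ℝ) : ℂ) * Complex.I) =
      2 * Complex.cos ((ps N c + π : ℝ) : ℂ) := by
    rw [Complex.two_cos]
    push_cast
    ring
  rw [h3]
  push_cast
  rw [Complex.cos_add_pi]
  ring

lemma un_cont (N c : ℕ) : ContinuousAt (fun v => un v c) (vN N) := by
  unfold un
  exact (continuousAt_zpow₀ _ _ (Or.inl (vN_ne N))).add
    (continuousAt_zpow₀ _ _ (Or.inl (vN_ne N)))

/-! ### Closure properties of `Lm` -/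

lemma lm_const (N : ℕ) (a : ℂ → ℂ) (a0 : ℂ) (h : Tendsto a (𝓝[≠] vN N) (𝓝 a0)) :
    Lm N (fun v _ => a v) (fun _ => a0) where
  an := differentiable_const _
  ev := fun _ => rfl
  l0 := fun _ _ => h
  l1 := fun c _ _ => by simp

lemma lm_mul {N : ℕ} {x y : ℂ → ℕ → ℂ} {F G : ℂ → ℂ} (hx : Lm N x F) (hy : Lm N y G) :
    Lm N (fun v c => x v c * y v c) (fun ψ => F ψ * G ψ) where
  an := hx.an.mul hy.an
  ev := fun ψ => by rw [hx.ev, hy.ev]
  l0 := fun c hc => (hx.l0 c hc).mul (hy.l0 c hc)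
  l1 := fun c hc h2 => by
    have h3 : N - 1 - c < N := by omega
    have h4 := hx.l0 (N - 1 - c) h3
    have h5 := hy.l0 (N - 1 - c) h3
    have h6 := hx.l1 c hc h2
    have h7 := hy.l1 c hc h2
    rw [ps_symm hc] at h4 h5
    push_cast at h4 h5
    rw [hx.ev] at h4
    have h8 := (h6.mul (hy.l0 c hc)).add (h4.mul h7)
    have h9 : deriv (fun ψ => F ψ * G ψ) (ps N c) / (2 * Complex.sin (ps N c)) =
        deriv F (ps N c) / (2 * Complex.sin (ps N c)) * G (ps N c) +
        F (ps N c) * (deriv G (ps N c) / (2 * Complex.sin (ps N c))) := by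
      rw [deriv_fun_mul (hx.an _) (hy.an _)]
      ring
    rw [h9]
    refine h8.congr fun v => ?_
    ring

lemma lm_add {N : ℕ} {x y : ℂ → ℕ → ℂ} {F G : ℂ → ℂ} (hx : Lm N x F) (hy : Lm N y G) :
    Lm N (fun v c => x v c + y v c) (fun ψ => F ψ + G ψ) where
  an := hx.an.add hy.an
  ev := fun ψ => by rw [hx.ev, hy.ev]
  l0 := fun c hc => (hx.l0 c hc).add (hy.l0 c hc)
  l1 := fun c hc h2 => by
    have h8 := (hx.l1 c hc h2).add (hy.l1 c hc h2)
    have h9 : deriv (fun ψ => F ψ + G ψ) (ps N c) / (2 * Complex.sin (ps N c)) =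
        deriv F (ps N c) / (2 * Complex.sin (ps N c)) +
        deriv G (ps N c) / (2 * Complex.sin (ps N c)) := by
      rw [deriv_fun_add (hx.an _) (hy.an _)]
      ring
    rw [h9]
    refine h8.congr fun v => ?_
    ring

lemma lm_sum {N : ℕ} (s : Finset ℕ) (x : ℕ → ℂ → ℕ → ℂ) (F : ℕ → ℂ → ℂ)
    (h : ∀ i ∈ s, Lm N (x i) (F i)) :
    Lm N (fun v c => ∑ i ∈ s, x i v c) (fun ψ => ∑ i ∈ s, F i ψ) := by
  induction s using Finset.induction_on with
  | empty => simpa using lm_const N (fun _ => 0) 0 tendsto_const_nhds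
  | insert a s ha ih =>
    have h1 := lm_add (h a (mem_insert_self a s)) (ih fun i hi => h i (mem_insert_of_mem hi))
    simpa [sum_insert ha] using h1

lemma lm_prod {N : ℕ} (s : Finset ℕ) (x : ℕ → ℂ → ℕ → ℂ) (F : ℕ → ℂ → ℂ)
    (h : ∀ i ∈ s, Lm N (x i) (F i)) :
    Lm N (fun v c => ∏ i ∈ s, x i v c) (fun ψ => ∏ i ∈ s, F i ψ) := by
  induction s using Finset.induction_on with
  | empty => simpa using lm_const N (fun _ => 1) 1 tendsto_const_nhds
  | insert a s ha ih =>
    have h1 := lm_mul (h a (mem_insert_self a s)) (ih fun i hi => h i (mem_insert_of_mem hi))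
    simpa [prod_insert ha] using h1

lemma sin_ps_ne {N c : ℕ} (hc : c < N) (h : 2 * c + 1 ≠ N) : Complex.sin (ps N c) ≠ 0 := by
  have hN0 : (0 : ℝ) < N := by exact_mod_cast (by omega : 0 < N)
  have hp := Real.pi_pos
  rw [← Complex.ofReal_sin]
  have : Real.sin (ps N c) ≠ 0 := by
    have h1 : -π < ps N c := by
      unfold ps
      rw [lt_div_iff₀ hN0]
      nlinarith
    have h2 : ps N c < π := by
      unfold ps
      rw [div_lt_iff₀ hN0]
      have : (2 * (c : ℝ) + 1 - N) < N := by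
        have : (c : ℝ) + 1 ≤ N := by exact_mod_cast hc
        linarith
      nlinarith
    have h3 : ps N c ≠ 0 := by
      unfold ps
      have h4 : (2 * (c : ℝ) + 1 - N) ≠ 0 := by
        intro h5
        apply h
        have h6 : (2 * (c : ℝ) + 1) = N := by linarith
        exact_mod_cast h6
      positivity
    intro h4
    rcases lt_trichotomy (ps N c) 0 with h5 | h5 | h5
    · exact absurd h4 (Real.sin_neg_of_neg_of_neg_pi_lt h5 h1).ne
    · exact h3 h5
    · exact absurd h4 (Real.sin_pos_of_pos_of_lt_pi h5 h2).ne'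
  exact_mod_cast this

lemma lm_un {N : ℕ} (hN : 2 ≤ N) : Lm N (fun v c => un v c) (fun ψ => -2 * Complex.cos ψ) where
  an := by fun_prop
  ev := fun ψ => by rw [Complex.cos_neg]
  l0 := fun c _ => by
    have h1 := (un_cont N c).tendsto
    rw [un_vN (by omega)] at h1
    exact h1.mono_left nhdsWithin_le_nhds
  l1 := fun c hc h => by
    have h1 : deriv (fun ψ => -2 * Complex.cos ψ) (ps N c) = 2 * Complex.sin (ps N c) := by
      rw [deriv_const_mul _ (Complex.differentiable_cos _)]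
      simp
    have h2 := sin_ps_ne hc h
    rw [h1, div_self (mul_ne_zero two_ne_zero h2)]
    refine (tendsto_const_nhds (x := (1 : ℂ))).congr' ?_
    filter_upwards [un_ev N c (N - 1 - c) (by omega)] with v hv
    rw [div_self hv]

lemma lm_congr {N : ℕ} {x y : ℂ → ℕ → ℂ} {F G : ℂ → ℂ} (hx : Lm N x F)
    (h : ∀ᶠ v in 𝓝[≠] vN N, ∀ c < N, x v c = y v c) (hF : ∀ ψ, F ψ = G ψ) : Lm N y G := by
  obtain rfl : F = G := funext hF
  refine ⟨hx.an, hx.ev, ?_, ?_⟩
  · intro c hc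
    refine (hx.l0 c hc).congr' ?_
    filter_upwards [h] with v hv
    exact hv c hc
  · intro c hc h2
    refine (hx.l1 c hc h2).congr' ?_
    filter_upwards [h] with v hv
    rw [hv c hc, hv (N - 1 - c) (by omega)]

/-! ### The polynomial form of the rotation -/

lemma rt_poly {N : ℕ} (v : ℂ) (x : ℕ → ℂ) {c : ℕ} (hc : c < N)
    (hne : ∀ j < N, c ≠ j → un v c - un v j ≠ 0) :
    rt N v x c = (-1) ^ (N - 1) * gam N v c * ∑ n ∈ range N, wn N v n * dd v x n *
      ∏ j ∈ Ico (n + 1) N, (un v c - un v j) := by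
  unfold rt gam
  have h1 : ∑ n ∈ range N, wn N v n * dd v x n * ∏ j ∈ Ico (n + 1) N, (un v c - un v j) =
      ∑ n ∈ Ico c N, wn N v n * dd v x n * ∏ j ∈ Ico (n + 1) N, (un v c - un v j) := by
    symm
    apply sum_subset
    · intro n hn
      rw [mem_Ico] at hn
      exact mem_range.mpr hn.2
    · intro n hn hn2
      rw [mem_range] at hn
      rw [mem_Ico, not_and] at hn2
      have hnc : n < c := by
        by_contra h
        exact hn2 (not_lt.mp h) hn
      rw [prod_eq_zero (i := c) (mem_Ico.mpr ⟨hnc, hc⟩) (sub_self _), mul_zero]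
  rw [h1, mul_sum, mul_sum]
  refine sum_congr rfl fun n hn => ?_
  rw [mem_Ico] at hn
  have h2 : ∏ j ∈ (range N).erase c, (un v c - un v j) =
      (∏ j ∈ (range (n + 1)).erase c, (un v c - un v j)) *
        ∏ j ∈ Ico (n + 1) N, (un v c - un v j) := by
    rw [← prod_union]
    · congr 1
      ext j
      simp only [mem_erase, mem_range, mem_union, mem_Ico]
      omega
    · rw [disjoint_left]
      intro j hj hj2
      simp only [mem_erase, mem_range] at hj
      rw [mem_Ico] at hj2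
      omega
  have h3 : ∏ j ∈ Ico (n + 1) N, (un v c - un v j) ≠ 0 := by
    refine prod_ne_zero_iff.mpr fun j hj => ?_
    rw [mem_Ico] at hj
    exact hne j hj.2 (by omega)
  have h4 : ∏ j ∈ (range (n + 1)).erase c, (un v c - un v j) ≠ 0 := by
    refine prod_ne_zero_iff.mpr fun j hj => ?_
    simp only [mem_erase, mem_range] at hj
    exact hne j (by omega) (Ne.symm hj.1)
  rw [h2]
  by_cases hb : br v (2 * (c : ℤ) + 1) = 0
  · simp [hb]
  · field_simp

/-- the product of the differences in the limit -/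
lemma prod_lim {N n : ℕ} (hn : n < N) (ψ : ℂ) :
    ∏ j ∈ Ico (n + 1) N, (-2 * Complex.cos ψ - un (vN N) j) =
      (-1) ^ (N - 1 - n) * Rp N (N - 1 - n) ψ := by
  have hN : 0 < N := by omega
  unfold Rp
  have h1 : ∀ j ∈ range (N - 1 - n), (2 * Complex.cos ψ + 2 * (Real.cos (phi N j) : ℂ)) =
      -(-2 * Complex.cos ψ - un (vN N) (N - 1 - j)) := by
    intro j hj
    rw [mem_range] at hj
    rw [un_vN hN, ps_symm (by omega)]
    have h2 : phi N j = ps N j + π := by
      unfold phi ps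
      have hN0 : (N : ℝ) ≠ 0 := by exact_mod_cast hN.ne'
      field_simp
      ring
    rw [h2, Real.cos_add_pi]
    push_cast
    rw [Complex.cos_neg]
    ring
  rw [prod_congr rfl h1, prod_neg, card_range, ← mul_assoc, ← mul_pow]
  simp only [neg_mul, one_mul, neg_neg, one_pow, mul_neg, mul_one]
  refine prod_bij' (fun j _ => N - 1 - j) (fun j _ => N - 1 - j) ?_ ?_ ?_ ?_ ?_
  · intro j hj
    rw [mem_Ico] at hj
    rw [mem_range]
    omega
  · intro j hj
    rw [mem_range] at hj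
    rw [mem_Ico]
    omega
  · intro j hj
    rw [mem_Ico] at hj
    show N - 1 - (N - 1 - j) = j
    omega
  · intro j hj
    rw [mem_range] at hj
    show N - 1 - (N - 1 - j) = j
    omega
  · intro j hj
    rw [mem_Ico] at hj
    rw [show N - 1 - (N - 1 - j) = j by omega]

/-- **AR-LMR.** -/
theorem lmr : S_LMD → S_GAM → S_LMR := by
  intro hD hG N x F hN hx
  have hN0 : 0 < N := by omega
  have hNC : (N : ℂ) ≠ 0 := by exact_mod_cast hN0.ne'
  set D : ℕ → ℂ := fun n => Complex.I / (2 * π) * (-1) ^ (N - 1 - n) *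
    upp (1 / N) fun ψ => F ψ * Rp N (N - 1 - n) ψ * kr N ψ with hDdef
  have hgam : Lm N (fun v c => gam N v c) (fun _ => 1 / (N : ℂ) ^ 2) := by
    refine ⟨differentiable_const _, fun _ => rfl, fun c hc => (hG N hN c hc).1, fun c hc h => ?_⟩
    simpa using (hG N hN c hc).2 h
  have hmain : Lm N (fun v c => ((-1) ^ (N - 1) * gam N v c) *
      ∑ n ∈ range N, (wn N v n * dd v (x v) n) * ∏ j ∈ Ico (n + 1) N, (un v c - un v j))
      (fun ψ => ((-1) ^ (N - 1) * (1 / (N : ℂ) ^ 2)) *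
      ∑ n ∈ range N, (wn N (vN N) n * D n) *
        ∏ j ∈ Ico (n + 1) N, (-2 * Complex.cos ψ - un (vN N) j)) := by
    refine lm_mul (lm_mul (lm_const N _ _ tendsto_const_nhds) hgam) ?_
    refine lm_sum (range N) (fun n v c => (wn N v n * dd v (x v) n) *
      ∏ j ∈ Ico (n + 1) N, (un v c - un v j)) (fun n ψ => (wn N (vN N) n * D n) *
        ∏ j ∈ Ico (n + 1) N, (-2 * Complex.cos ψ - un (vN N) j)) ?_
    intro n hn
    rw [mem_range] at hn
    refine lm_mul (lm_const N _ _ ?_) ?_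
    · exact ((wn_cont N n).tendsto.mono_left nhdsWithin_le_nhds).mul (hD N x F hN hx n hn)
    · refine lm_prod (Ico (n + 1) N) (fun j v c => un v c - un v j)
        (fun j ψ => -2 * Complex.cos ψ - un (vN N) j) ?_
      intro j hj
      have h1 := lm_add (lm_un hN) (lm_const N (fun v => - un v j) (- un (vN N) j)
        ((un_cont N j).tendsto.mono_left nhdsWithin_le_nhds).neg)
      simpa [sub_eq_add_neg] using h1
  refine lm_congr hmain ?_ ?_
  · have h1 : ∀ᶠ v in 𝓝[≠] vN N, ∀ c ∈ range N, ∀ j ∈ range N, c ≠ j →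
        un v c - un v j ≠ 0 := by
      rw [Filter.eventually_all_finset]
      intro c _
      rw [Filter.eventually_all_finset]
      intro j _
      by_cases hcj : c = j
      · exact Eventually.of_forall fun v h => absurd hcj h
      · filter_upwards [un_ev N c j hcj] with v hv _
        exact hv
    filter_upwards [h1] with v hv c hc
    rw [rt_poly v (x v) hc fun j hj h => hv c (mem_range.mpr hc) j (mem_range.mpr hj) h]
  · intro ψ'
    have h1 : ∀ ψ, F ψ * Pool.Agent.W711.HT.ker N ψ ψ' * kr N ψ = ∑ d ∈ range N,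
        (Rp N d ψ' / (Sd N d : ℂ) ^ 4) * (F ψ * Rp N d ψ * kr N ψ) := by
      intro ψ
      unfold Pool.Agent.W711.HT.ker
      rw [mul_sum, sum_mul]
      refine sum_congr rfl fun d _ => ?_
      ring
    simp only [h1]
    rw [upp_sum]
    · rw [← sum_range_reflect (fun d => upp (1 / N) fun ψ => (Rp N d ψ' / (Sd N d : ℂ) ^ 4) *
        (F ψ * Rp N d ψ * kr N ψ)), mul_sum, mul_sum]
      refine sum_congr rfl fun n hn => ?_
      rw [mem_range] at hn
      rw [upp_const_mul, prod_lim hn, wn_vN hN0, hDdef]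
      have hS : (Sd N n : ℂ) * (Sd N (N - 1 - n) : ℂ) = N := by exact_mod_cast Sd_mul hn
      have hS2 : (Sd N (N - 1 - n) : ℂ) ≠ 0 := by
        have := Sd_pos (N := N) (d := N - 1 - n) (by omega)
        exact_mod_cast this.ne'
      have hS3 : (Sd N n : ℂ) = N / (Sd N (N - 1 - n) : ℂ) := by
        rw [eq_div_iff hS2, hS]
      have hs : ((-1 : ℂ) ^ (N - 1 - n)) * (-1) ^ (N - 1 - n) = 1 := by
        rw [← mul_pow]; simp
      rw [hS3]
      set U := upp (1 / N) fun ψ => F ψ * Rp N (N - 1 - n) ψ * kr N ψ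
      set R := Rp N (N - 1 - n) ψ'
      set S := (Sd N (N - 1 - n) : ℂ)
      have hpi : (π : ℂ) ≠ 0 := by exact_mod_cast Real.pi_ne_zero
      set e := (-1 : ℂ) ^ (N - 1 - n)
      have h5 : (-1 : ℂ) ^ (N - 1) * (1 / (N : ℂ) ^ 2) * (((N : ℂ) / S) ^ 4 *
          (Complex.I / (2 * π) * e * U) * (e * R)) =
          (-1 : ℂ) ^ (N - 1) * (1 / (N : ℂ) ^ 2) * (((N : ℂ) / S) ^ 4 *
          (Complex.I / (2 * π) * U) * R) * (e * e) := by ring
      show (-1 : ℂ) ^ (N - 1) * (1 / (N : ℂ) ^ 2) * (((N : ℂ) / S) ^ 4 *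
          (Complex.I / (2 * π) * e * U) * (e * R)) = _
      rw [h5, hs, mul_one]
      field_simp
    · intro d _
      exact (IntP_kr hN0 (hx.an.continuous.mul (Rp_cont N d))).const_mul _

end Pool.Agent.W885.AR
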